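import Pool.Agent.Y819.ZF.Stm
import Pool.Agent.H604R2.LEC.Glynn

/-!
# `S_TRF`: Glynn's formula gives a linear functional of the graph polynomial
-/

set_option autoImplicit false

namespace Pool.Agent.Y153.ZF

open MvPolynomial Finset Pool.Agent.H604R2.LEC Pool.Agent.Y819.ZF

theorem main (h1 : S_COEF) (h2 : S_HOM) : S_TRF := by
  intro p _ n hn A
  classical
  choose φ _ hφ2 using fun y : Fin n → ZMod p =>
    h1 (ZMod p) n (p - 1) (fun i => ∑ j, A i j * y j) y
  set L : (Fin n →₀ ℕ) → ZMod p := fun a =>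
    ∑ y : Fin n → ZMod p, (∏ i, y i ^ (p - 2 - a i)) * φ y (monomial a 1) with hL
  refine ⟨(basisMonomials (Fin n) (ZMod p)).constr (ZMod p) L, ?_⟩
  intro E _ τ η hreg
  have hΛ : ∀ (a : Fin n →₀ ℕ) (c : ZMod p),
      ((basisMonomials (Fin n) (ZMod p)).constr (ZMod p) L) (monomial a c) = c * L a := by
    intro a c
    have e : (monomial a c : MvPolynomial (Fin n) (ZMod p)) =
        c • basisMonomials (Fin n) (ZMod p) a := by
      rw [coe_basisMonomials]
      simp [smul_monomial]
    rw [e, map_smul, Module.Basis.constr_basis, smul_eq_mul]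
  have hdet : (SM (ZMod p) τ η + A.map C).det ^ (p - 1) = ∑ y : Fin n → ZMod p,
      ∏ i, (C (∑ j, A i j * y j) + ∑ j, SM (ZMod p) τ η i j * C (y j)) ^ (p - 1) := by
    rw [det_pow_alg hn]
    refine Finset.sum_congr rfl fun y _ => Finset.prod_congr rfl fun i _ => ?_
    congr 1
    rw [map_sum, ← Finset.sum_add_distrib]
    refine Finset.sum_congr rfl fun j _ => ?_
    rw [Matrix.add_apply, Matrix.map_apply, map_mul, MvPolynomial.algebraMap_eq]
    ring
  have hDD : DD p A τ η = ∑ y : Fin n → ZMod p,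
      φ y (∏ e, (C (y (η e)) * X (τ e) - C (y (τ e)) * X (η e))) := by
    unfold DD
    rw [hdet, coeff_sum]
    exact Finset.sum_congr rfl fun y _ => hφ2 y E τ η
  have hG : ∀ y : Fin n → ZMod p,
      φ y (∏ e, (C (y (η e)) * X (τ e) - C (y (τ e)) * X (η e))) =
        ∑ a ∈ (PP (ZMod p) τ η).support, coeff a (PP (ZMod p) τ η) *
          ((∏ i, y i ^ (p - 2 - a i)) * φ y (monomial a 1)) := by
    intro y
    set G : MvPolynomial (Fin n) (ZMod p) :=
      ∏ e, (C (y (η e)) * X (τ e) - C (y (τ e)) * X (η e)) with hGd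
    have hc : ∀ a, coeff a G = (∏ i, y i ^ (p - 2 - a i)) * coeff a (PP (ZMod p) τ η) :=
      fun a => h2 (ZMod p) n (p - 2) E τ η hreg y a
    have hsup : G.support ⊆ (PP (ZMod p) τ η).support := by
      intro a ha
      rw [mem_support_iff] at ha ⊢
      intro h0
      apply ha
      rw [hc, h0, mul_zero]
    have e1 : G = ∑ a ∈ (PP (ZMod p) τ η).support,
        coeff a G • (monomial a 1 : MvPolynomial (Fin n) (ZMod p)) := by
      conv_lhs => rw [← support_sum_monomial_coeff G]
      rw [Finset.sum_subset hsup (fun a _ ha => by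
        rw [notMem_support_iff.1 ha, map_zero])]
      refine Finset.sum_congr rfl fun a _ => ?_
      rw [smul_monomial, smul_eq_mul, mul_one]
    conv_lhs => rw [e1, map_sum]
    refine Finset.sum_congr rfl fun a _ => ?_
    rw [map_smul, smul_eq_mul, hc]
    ring
  rw [hDD, Finset.sum_congr rfl fun y _ => hG y, Finset.sum_comm]
  conv_rhs => rw [← support_sum_monomial_coeff (PP (ZMod p) τ η), map_sum]
  refine Finset.sum_congr rfl fun a _ => ?_
  rw [hΛ, hL, Finset.mul_sum]

end Pool.Agent.Y153.ZF
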